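import Pool.Agent.Lib.MP_a325a5_ag.G.Gpol
import Pool.Agent.Lib.MP_a325a5_ag.G.OnCL

/-! Complex points of the curve with a multiplicative relation are algebraic.

Proof.  `K` = the algebraic numbers; `letI : Algebra K ℂ := φ.toAlgebra`; `w` is a point over `ℂ`: `OnC K x w` (`eval₂ φ` is
`aeval`).  For every `j`: `gpol hx` with `b = a` gives `G`, primitive, `aevalAeval (∏ x^a) (x j) G = 0`; `onC_bip`:
`aevalAeval 1 (w j) G = 0`.  The polynomial `G.map (evalRingHom 1) ∈ K[X]` is not zero (otherwise `C (X - 1)` divides `G`),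
and its image under `φ` has the zero `w j`: so `w j` is algebraic over `K`, hence `w j = φ (c j)` (`K` is algebraically
closed; `SAlg_root` in F2/SAlg.lean is private, copy it).  `OnC K x c`: `φ (aeval c p) = eval₂ φ w p = 0`. -/

namespace BMG

private theorem AlgQ_root (φ : AlgebraicClosure ℚ →+* ℂ) (t : ℂ)
    (P : Polynomial (AlgebraicClosure ℚ)) (hP : P ≠ 0) (h : P.eval₂ φ t = 0) :
    ∃ t' : AlgebraicClosure ℚ, φ t' = t := by
  have h1 : (P.map φ).roots = P.roots.map φ :=
    (Polynomial.Splits.roots_map (IsAlgClosed.splits P) φ)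
  have h2 : t ∈ (P.map φ).roots := by
    rw [Polynomial.mem_roots ((Polynomial.map_ne_zero_iff φ.injective).2 hP),
      Polynomial.IsRoot.def, Polynomial.eval_map]
    exact h
  rw [h1, Multiset.mem_map] at h2
  obtain ⟨x, -, hx⟩ := h2
  exact ⟨x, hx⟩

private theorem AlgQ_aa {R A : Type} [CommRing R] [CommRing A] [Algebra R A] (x y : A)
    (G : Polynomial (Polynomial R)) : Polynomial.aevalAeval x y G =
      Polynomial.eval₂ (Polynomial.aeval x : Polynomial R →ₐ[R] A).toRingHom y G := by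
  induction G using Polynomial.induction_on' with
  | add p q hp hq => rw [map_add, Polynomial.eval₂_add, hp, hq]
  | monomial n a =>
    rw [← Polynomial.C_mul_X_pow_eq_monomial, map_mul, map_pow, Polynomial.aevalAeval_C,
      Polynomial.aevalAeval_Y, Polynomial.eval₂_mul, Polynomial.eval₂_C, Polynomial.eval₂_X_pow]
    rfl

theorem alg_curve {Ω : Type} [Field Ω] [Algebra (AlgebraicClosure ℚ) Ω] {x : Fin 3 → Ω}
    (hx : Crv (AlgebraicClosure ℚ) x) (φ : AlgebraicClosure ℚ →+* ℂ) (w : Fin 3 → ℂˣ)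
    (hw : (fun j => (w j : ℂ)) ∈ CT (AlgebraicClosure ℚ) x φ) (a : Fin 3 → ℤ) (ha : a ≠ 0)
    (h : ∏ j, w j ^ a j = 1) :
    ∃ c : Fin 3 → (AlgebraicClosure ℚ)ˣ, (∀ j, (w j : ℂ) = φ (c j)) ∧
      OnC (AlgebraicClosure ℚ) x (fun j => (c j : AlgebraicClosure ℚ)) := by
  classical
  letI : Algebra (AlgebraicClosure ℚ) ℂ := φ.toAlgebra
  have halg : ∀ y : AlgebraicClosure ℚ, algebraMap (AlgebraicClosure ℚ) ℂ y = φ y := fun _ => rfl
  have hon : OnC (AlgebraicClosure ℚ) x (fun j => (w j : ℂ)) := fun p hp => hw.2 p hp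
  have hprod : ∏ l, (w l : ℂ) ^ a l = 1 := by
    have := congrArg (fun u : ℂˣ => (u : ℂ)) h
    simpa using this
  obtain ⟨n₀, -, hG⟩ := gpol hx
  have hex : ∀ j, ∃ c : AlgebraicClosure ℚ, φ c = w j := by
    intro j
    obtain ⟨G, hGp, -, hG0⟩ := hG a ha j
    have h1 := onC_bip hx.ne (fun j => (w j).ne_zero) hon a j G hG0
    rw [hprod] at h1
    refine AlgQ_root φ (w j : ℂ) (G.map (Polynomial.evalRingHom 1)) ?_ ?_
    · intro h0
      have h2 : ∀ i, Polynomial.X - Polynomial.C 1 ∣ G.coeff i := by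
        intro i
        rw [Polynomial.dvd_iff_isRoot, Polynomial.IsRoot.def]
        have h3 := congrArg (fun P => Polynomial.coeff P i) h0
        simpa using h3
      have h4 := hGp _ (Polynomial.C_dvd_iff_dvd_coeff _ _ |>.mpr h2)
      exact Polynomial.not_isUnit_X_sub_C _ h4
    · rw [Polynomial.eval₂_map]
      have h5 : (φ.comp (Polynomial.evalRingHom (1 : AlgebraicClosure ℚ))) =
          (Polynomial.aeval (1 : ℂ) : Polynomial (AlgebraicClosure ℚ) →ₐ[AlgebraicClosure ℚ] ℂ).toRingHom := by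
        ext y
        · simp [halg]
        · simp
      rw [h5, ← AlgQ_aa]
      exact h1
  choose c hc using hex
  have hc0 : ∀ j, c j ≠ 0 := by
    intro j h0
    have := hc j
    rw [h0, map_zero] at this
    exact (w j).ne_zero this.symm
  refine ⟨fun j => Units.mk0 (c j) (hc0 j), fun j => (hc j).symm, fun p hp => ?_⟩
  apply φ.injective
  rw [map_zero]
  have h1 := hw.2 p hp
  have h2 : (fun j => (w j : ℂ)) = fun j => φ (c j) := by
    funext j
    rw [hc j]
  rw [h2] at h1
  rw [← h1, MvPolynomial.aeval_def]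
  exact MvPolynomial.eval₂_comp_left φ (algebraMap (AlgebraicClosure ℚ) (AlgebraicClosure ℚ)) c p

end BMG
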