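import Pool.Agent.Lib.MP_a325a5_ag.G.GDef

/-! Descent of the curve to a number field.

Proof.  `K` = the algebraic numbers, `I` = the kernel of `aeval x` on `MvPolynomial (Fin 3) K`, generated by finitely
many `g_i` (Noetherian).  `L = IntermediateField.adjoin ℚ (S ∪ all coefficients of the g_i)` (as a type), a number
field; `Algebra L Ω` by composition (`IsScalarTower L K Ω`).  `Crv L x`: `ne` clear; `alg`: every `y ∈ Ω` is algebraic over
`K(x 0)`, which is algebraic over `L(x 0)` (`K` is algebraic over `ℚ`, so over `L`: every element of `K(x 0)` is a quotient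
of polynomials in `x 0` with algebraic coefficients); `tr`: if `∏ x^a` is algebraic over `L` it is algebraic over `K`.
For `q ∈ I`: `q = ∑ h_i g_i`, `g_i` = the image of `g_i' ∈ L[X]` with `aeval x g_i' = 0`.  So `OnC L x c` gives
`aeval c q = ∑ aeval c h_i * aeval c g_i' = 0`, and for `w ∈ CT L x (τ ∘ (L → K))`:
`eval₂ τ w q = ∑ eval₂ τ w h_i * eval₂ (τ ∘ (L → K)) w g_i' = 0`. -/

namespace BMG

open MvPolynomial

section dq

variable {L K Ω : Type} [Field L] [Field K] [Field Ω] [Algebra L K] [Algebra K Ω] [Algebra L Ω]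
  [IsScalarTower L K Ω] {x : Fin 3 → Ω}

/-- change of the ground field -/
private theorem dq_crv [Algebra.IsAlgebraic L K] (hx : Crv K x) : Crv L x := by
  refine ⟨hx.ne, ?_, ?_⟩
  · intro y
    let F : IntermediateField L Ω := IntermediateField.adjoin L {x 0}
    let A : IntermediateField F Ω := algebraicClosure F Ω
    have hK : ∀ k : K, algebraMap K Ω k ∈ A.toSubfield := by
      intro k
      change algebraMap K Ω k ∈ algebraicClosure F Ω
      rw [mem_algebraicClosure_iff]
      have h1 : IsAlgebraic L (algebraMap K Ω k) :=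
        (Algebra.IsAlgebraic.isAlgebraic (R := L) k).algebraMap
      exact h1.tower_top F
    have h0 : x 0 ∈ A := by
      have h1 : x 0 ∈ F := IntermediateField.subset_adjoin L _ rfl
      exact A.algebraMap_mem ⟨x 0, h1⟩
    have hle : IntermediateField.adjoin K {x 0} ≤ A.toSubfield.toIntermediateField hK := by
      rw [IntermediateField.adjoin_le_iff, Set.singleton_subset_iff]
      exact h0
    have hy := hx.alg y
    let f : IntermediateField.adjoin K {x 0} →+* A :=
      (algebraMap (IntermediateField.adjoin K {x 0}) Ω).codRestrict A (fun z => hle z.2)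
    have h2 : IsAlgebraic A (RingHom.id Ω y) := by
      refine IsAlgebraic.ringHom_of_comp_eq (f := f) (g := RingHom.id Ω) hy f.injective ?_
      rfl
    exact IsAlgebraic.restrictScalars F (S := A) h2
  · intro a ha h
    exact hx.tr a ha (h.tower_top K)

variable (hG : ∀ q : MvPolynomial (Fin 3) K, aeval x q = 0 →
    q ∈ Ideal.span (MvPolynomial.map (algebraMap L K) '' {g | aeval x g = 0}))

include hG

private theorem dq_onc {E : Type} [Field E] [Algebra L E] [Algebra K E] [IsScalarTower L K E]
    (c : Fin 3 → E) : OnC L x c ↔ OnC K x c := by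
  constructor
  · intro h q hq
    have h1 : Ideal.span (MvPolynomial.map (algebraMap L K) '' {g | aeval x g = 0}) ≤
        RingHom.ker (aeval c : MvPolynomial (Fin 3) K →ₐ[K] E) := by
      rw [Ideal.span_le]
      rintro _ ⟨g, hg, rfl⟩
      change aeval c (MvPolynomial.map (algebraMap L K) g) = 0
      rw [MvPolynomial.aeval_map_algebraMap]
      exact h g hg
    exact h1 (hG q hq)
  · intro h p hp
    rw [← MvPolynomial.aeval_map_algebraMap K] at hp ⊢
    exact h _ hp

private theorem dq_ct (τ : K →+* ℂ) : CT L x (τ.comp (algebraMap L K)) = CT K x τ := by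
  ext w
  constructor
  · rintro ⟨h0, h⟩
    refine ⟨h0, fun q hq => ?_⟩
    have h1 : Ideal.span (MvPolynomial.map (algebraMap L K) '' {g | aeval x g = 0}) ≤
        RingHom.ker (MvPolynomial.eval₂Hom τ w) := by
      rw [Ideal.span_le]
      rintro _ ⟨g, hg, rfl⟩
      change MvPolynomial.eval₂ τ w (MvPolynomial.map (algebraMap L K) g) = 0
      rw [MvPolynomial.eval₂_map]
      exact h g hg
    exact h1 (hG q hq)
  · rintro ⟨h0, h⟩
    refine ⟨h0, fun p hp => ?_⟩
    rw [← MvPolynomial.eval₂_map]
    apply h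
    rw [MvPolynomial.aeval_map_algebraMap]
    exact hp

end dq

theorem descend {Ω : Type} [Field Ω] [Algebra (AlgebraicClosure ℚ) Ω] {x : Fin 3 → Ω}
    (hx : Crv (AlgebraicClosure ℚ) x) (S : Set (AlgebraicClosure ℚ)) (hS : S.Finite) :
    ∃ (L : Type) (_ : Field L) (_ : NumberField L) (_ : Algebra L (AlgebraicClosure ℚ))
      (_ : Algebra L Ω) (_ : IsScalarTower L (AlgebraicClosure ℚ) Ω),
      S ⊆ Set.range (algebraMap L (AlgebraicClosure ℚ)) ∧ Crv L x ∧
      (∀ c : Fin 3 → AlgebraicClosure ℚ, OnC L x c ↔ OnC (AlgebraicClosure ℚ) x c) ∧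
      ∀ τ : AlgebraicClosure ℚ →+* ℂ,
        CT L x (τ.comp (algebraMap L (AlgebraicClosure ℚ))) = CT (AlgebraicClosure ℚ) x τ := by
  classical
  obtain ⟨G, hG⟩ : (RingHom.ker (aeval x : MvPolynomial (Fin 3) (AlgebraicClosure ℚ) →ₐ[
    AlgebraicClosure ℚ] Ω)).FG := IsNoetherian.noetherian _
  let T : Set (AlgebraicClosure ℚ) := S ∪ ⋃ g ∈ G, (g.coeffs : Set (AlgebraicClosure ℚ))
  have hT : T.Finite := hS.union (G.finite_toSet.biUnion fun g _ => g.coeffs.finite_toSet)
  have hTf : Finite T := hT
  have hAQ : Algebra.IsAlgebraic ℚ (AlgebraicClosure ℚ) := AlgebraicClosure.isAlgebraic ℚ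
  let L := IntermediateField.adjoin ℚ T
  have hfd : FiniteDimensional ℚ L := IntermediateField.finiteDimensional_adjoin fun y _ =>
    (Algebra.IsAlgebraic.isAlgebraic (R := ℚ) y).isIntegral
  have hnf : NumberField L := @NumberField.mk _ _ inferInstance (by convert hfd)
  have halg : Algebra.IsAlgebraic L (AlgebraicClosure ℚ) := Algebra.IsAlgebraic.tower_top (K := ℚ) L
  have hTL : ∀ t ∈ T, t ∈ Set.range (algebraMap L (AlgebraicClosure ℚ)) := fun t ht =>
    ⟨⟨t, IntermediateField.subset_adjoin ℚ T ht⟩, rfl⟩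
  have key : ∀ q : MvPolynomial (Fin 3) (AlgebraicClosure ℚ), aeval x q = 0 →
      q ∈ Ideal.span (MvPolynomial.map (algebraMap L (AlgebraicClosure ℚ)) ''
        {g | aeval x g = 0}) := by
    intro q hq
    have h1 : q ∈ Ideal.span (G : Set (MvPolynomial (Fin 3) (AlgebraicClosure ℚ))) := by
      rw [hG]
      exact hq
    refine Ideal.span_mono ?_ h1
    intro g hg
    have hg0 : aeval x g = 0 := by
      have h2 : g ∈ Ideal.span (G : Set (MvPolynomial (Fin 3) (AlgebraicClosure ℚ))) :=
        Ideal.subset_span hg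
      rw [hG] at h2
      exact h2
    have h3 : g ∈ Set.range (MvPolynomial.map (algebraMap L (AlgebraicClosure ℚ))) := by
      rw [MvPolynomial.mem_range_map_iff_coeffs_subset]
      intro t ht
      exact hTL t (Or.inr (Set.mem_biUnion hg ht))
    obtain ⟨g', rfl⟩ := h3
    refine ⟨g', ?_, rfl⟩
    rw [MvPolynomial.aeval_map_algebraMap] at hg0
    exact hg0
  exact ⟨L, inferInstance, hnf, inferInstance, inferInstance, inferInstance,
    fun s hs => hTL s (Or.inl hs), dq_crv (K := AlgebraicClosure ℚ) hx,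
    fun c => dq_onc (K := AlgebraicClosure ℚ) key c, fun τ => dq_ct key τ⟩

end BMG
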