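import Pool.Agent.Lib.MP_a325a5_ag.G2.AlgQ
import Pool.Agent.Lib.MP_a325a5_ag.G2.DesQ
import Pool.Agent.Lib.MP_a325a5_ag.G.T1G
import Pool.Agent.Lib.MP_a325a5_ag.UL.Pts

/-! Finitely many complex points of rank at most one.

Proof.  `mr w ≤ 1` gives two independent relations `a, b` (private lemma `SAlg_two` of F2/SAlg.lean, copy it).
`alg_curve`: `w j = φ (c j)`, `c` a point over the algebraic numbers with the same relations.  `descend` (with `S = ∅`)
gives `L`, `fin_T1G L`: finitely many `c`; the set is contained in the image of this finite set. -/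

open Pool.Agent.Lib.MP_a325a5_ag.UL

namespace BMG

private theorem FinC_two (c : Fin 3 → ℂˣ) (h : mr c ≤ 1) : ∃ a b : Fin 3 → ℤ,
    LinearIndependent ℤ ![a, b] ∧ ∏ j, c j ^ a j = 1 ∧ ∏ j, c j ^ b j = 1 := by
  classical
  obtain ⟨I, hI1, -, hI3⟩ := mr_spec c
  have hcard : 2 ≤ (Iᶜ : Finset (Fin 3)).card := by
    rw [Finset.card_compl, Fintype.card_fin]
    omega
  obtain ⟨i, hi, j, hj, hij⟩ := Finset.one_lt_card.1 (show 1 < (Iᶜ : Finset (Fin 3)).card by omega)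
  rw [Finset.mem_compl] at hi hj
  obtain ⟨N, a, hN, ha, hNa⟩ := hI3 i
  obtain ⟨M, b, hM, hb, hMb⟩ := hI3 j
  have hrel : ∀ (k : Fin 3) (n : ℕ) (e : Fin 3 → ℤ), c k ^ n = ∏ j, c j ^ e j →
      ∏ j, c j ^ ((Pi.single k (n : ℤ) : Fin 3 → ℤ) - e) j = 1 := by
    intro k n e he
    simp only [Pi.sub_apply, zpow_sub, Finset.prod_mul_distrib, Finset.prod_inv_distrib]
    rw [← he, Finset.prod_eq_single k]
    · rw [Pi.single_eq_same, zpow_natCast, mul_inv_cancel]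
    · intro l _ hl
      rw [Pi.single_eq_of_ne hl, zpow_zero]
    · intro hh
      exact absurd (Finset.mem_univ k) hh
  refine ⟨Pi.single i (N : ℤ) - a, Pi.single j (M : ℤ) - b, ?_, hrel i N a hNa, hrel j M b hMb⟩
  rw [LinearIndependent.pair_iff]
  intro x y hxy
  have h3 := congrFun hxy i
  have h4 := congrFun hxy j
  simp only [Pi.add_apply, Pi.smul_apply, Pi.sub_apply, Pi.single_eq_same, smul_eq_mul,
    Pi.zero_apply, Pi.single_eq_of_ne hij, Pi.single_eq_of_ne hij.symm, ha i hi, ha j hj,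
    hb i hi, hb j hj, sub_zero, mul_zero, add_zero, zero_add] at h3 h4
  have hN' : (N : ℤ) ≠ 0 := by exact_mod_cast hN.ne'
  have hM' : (M : ℤ) ≠ 0 := by exact_mod_cast hM.ne'
  exact ⟨(mul_eq_zero.1 h3).resolve_right hN', (mul_eq_zero.1 h4).resolve_right hM'⟩

theorem fin_rk1 {Ω : Type} [Field Ω] [Algebra (AlgebraicClosure ℚ) Ω] {x : Fin 3 → Ω}
    (hx : Crv (AlgebraicClosure ℚ) x) (φ : AlgebraicClosure ℚ →+* ℂ) :
    {w : Fin 3 → ℂˣ | (fun j => (w j : ℂ)) ∈ CT (AlgebraicClosure ℚ) x φ ∧ mr w ≤ 1}.Finite := by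
  classical
  obtain ⟨L, _, _, _, _, _, -, hxL, hon, -⟩ := descend hx ∅ Set.finite_empty
  have hfin := (fin_T1G L hxL).image (fun (c : Fin 3 → AlgebraicClosure ℚ) j => φ (c j))
  have hinj : Set.InjOn (fun (w : Fin 3 → ℂˣ) j => (w j : ℂ))
      {w : Fin 3 → ℂˣ | (fun j => (w j : ℂ)) ∈ CT (AlgebraicClosure ℚ) x φ ∧ mr w ≤ 1} := by
    intro w _ w' _ h
    funext j
    exact Units.ext (congrFun h j)
  refine Set.Finite.of_finite_image (hfin.subset ?_) hinj
  rintro _ ⟨w, ⟨hw, hm⟩, rfl⟩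
  obtain ⟨a, b, hab, ha, hb⟩ := FinC_two w hm
  have ha0 : a ≠ 0 := by
    have := hab.ne_zero 0
    simpa using this
  obtain ⟨c, hc, hcon⟩ := alg_curve hx φ w hw a ha0 ha
  have hrel : ∀ a : Fin 3 → ℤ, ∏ j, w j ^ a j = 1 → ∏ j, (c j : AlgebraicClosure ℚ) ^ a j = 1 := by
    intro a ha
    apply φ.injective
    rw [map_prod, map_one]
    have h3 := congrArg (Units.val : ℂˣ → ℂ) ha
    rw [Units.coe_prod, Units.val_one] at h3
    rw [← h3]
    refine Finset.prod_congr rfl fun j _ => ?_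
    rw [map_zpow₀, ← hc, Units.val_zpow_eq_zpow_val]
  refine ⟨fun j => (c j : AlgebraicClosure ℚ), ⟨fun j => (c j).ne_zero, (hon _).mpr hcon,
    a, b, hab, hrel a ha, hrel b hb⟩, ?_⟩
  funext j
  exact (hc j).symm

end BMG
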