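import Pool.Agent.Lib.MP_a325a5_ag.G2.ThmQ
import Pool.Agent.Lib.MP_a325a5_ag.G2.FinC
import Pool.Agent.Lib.MP_a325a5_ag.G2.ConG
import Pool.Agent.Lib.MP_a325a5_ag.G2.DenG
import Pool.Agent.Lib.MP_a325a5_ag.G2.DepG
import Pool.Agent.Lib.MP_a325a5_ag.F2.SConst
import Pool.Agent.Lib.MP_a325a5_ag.F2.SAlg
import Pool.Agent.Lib.MP_a325a5_ag.F2.SMin
import Pool.Agent.Lib.MP_a325a5_ag.F2.SFun

/-! The core: small ranks are not dense over a curve.  Follow `shell_core` in F2/SCore.lean, with `T = p (inl 0)`,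
`g = 1`, `b = 0` in the lemmas of F2/SFun.lean.

Proof.  If `p (inl 0)` is a constant then all three are (`const_all`): `const_case`.  Otherwise let `T₁` be the finite set
of the first coordinates of the points of `fin_rk1` and `S' = {s ∈ S | s (inl 0) ∉ T₁}`; `dens_subG`: `S'` is dense, not
empty; for `s ∈ S'` the rank of the first three coordinates is at least two, so `td ℂ p = m`, `mr p = m + 3`, `mr s ≤ 2`.
The points of `S'` are algebraic: `mr` of the first three is `≤ 2`, so there is a relation `a ≠ 0` (`mr_eq_card_iff`),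
`alg_curve` gives `c'`, and `alg_pt` gives `z'`.  `dep_qbarG`, `min_relation` (`ψ = (algebraMap ℂ L).comp φ`, `T`
transcendental: private lemma `SCore_tr`), `thmQ`: `T_*`, `N₀`, `C`.  `exists_avoid`: a point `s ∈ S'` at which no proper
partial sum of `f_i(s (inl 0)) ∏ s (inr l) ^ e i l` vanishes, `s (inl 0)` is not the first coordinate of a point of `T_*`
(finitely many polynomials `X (inl 0) - C (φ t)`), and for no `k` with `|k j| ≤ C`
`∏ s (inr l) ^ (N₀ e 1 l) = ∏ s (inr l) ^ (N₀ e 0 l) * ∏ s (inl j) ^ k j` (`pbin` with the exponents `N₀ * e`, `η = 1`; `bin_gen`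
because `N₀ * e 1 ≠ N₀ * e 0`).  The whole sum vanishes at `s`.  `thmQ` for `c'` and `z i = ∏ z' l ^ e i l` (rank `≤ mr s ≤ 2`,
`SCore_mon`, `SCore_emb`) gives a contradiction for the index `1`. -/

namespace BMG

open BMF BMS Pool.Agent.Lib.MP_a325a5_ag.UL MvPolynomial

/-- an element of an extension of `ℂ` that is not a constant is transcendental -/
private theorem CoreG_tr (φ : AlgebraicClosure ℚ →+* ℂ) {L : Type} [Field L] [Algebra ℂ L] (T : L)
    (hTt : ∀ t : ℂ, T ≠ algebraMap ℂ L t) (f : Polynomial (AlgebraicClosure ℚ)) (hf : f ≠ 0) :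
    f.eval₂ ((algebraMap ℂ L).comp φ) T ≠ 0 := by
  intro h0
  have h1 : Polynomial.aeval T (f.map φ) = 0 := by
    rw [Polynomial.aeval_def, Polynomial.eval₂_map]
    exact h0
  have h2 : f.map φ ≠ 0 := (Polynomial.map_ne_zero_iff φ.injective).2 hf
  have h3 : IsIntegral ℂ T := IsAlgebraic.isIntegral ⟨f.map φ, h2, h1⟩
  have h4 : (minpoly ℂ T).degree = 1 :=
    IsAlgClosed.degree_eq_one_of_irreducible ℂ (minpoly.irreducible h3)
  obtain ⟨t, ht⟩ := minpoly.mem_range_of_degree_eq_one ℂ T h4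
  exact hTt t ht.symm

/-- the rank of a subfamily -/
private theorem CoreG_sub {A : Type} [Field A] {ι κ : Type} [Fintype ι] [Fintype κ] (x : ι → Aˣ)
    (f : κ → ι) : mr (fun j => x (f j)) ≤ mr x :=
  mr_le_of_pow_mem x _ fun j => ⟨1, one_pos, by
    rw [pow_one]
    exact Subgroup.subset_closure ⟨f j, rfl⟩⟩

/-- the rank does not change under an embedding of fields -/
private theorem CoreG_emb {A B : Type} [Field A] [Field B] {ι : Type} [Fintype ι] (φ : A →+* B)
    (x : ι → Aˣ) (y : ι → Bˣ) (h : ∀ i, (y i : B) = φ (x i)) : mr x = mr y := by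
  refine mr_congr x y fun a => ?_
  have h1 : ∀ i, y i = Units.map (φ : A →* B) (x i) := fun i => Units.ext (h i)
  have h2 : ∏ i, y i ^ a i = Units.map (φ : A →* B) (∏ i, x i ^ a i) := by
    rw [map_prod]
    exact Finset.prod_congr rfl fun i _ => by rw [map_zpow, h1]
  rw [h2]
  constructor
  · intro h3
    apply Units.ext
    apply φ.injective
    have := congrArg (fun u : Bˣ => (u : B)) h3
    simpa using this
  · intro h3
    rw [h3, map_one]

/-- monomials in the last coordinates do not increase the rank -/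
private theorem CoreG_mon {A : Type} [Field A] {m n : ℕ} (c : Fin 3 → Aˣ) (z : Fin m → Aˣ)
    (e : Fin (n + 1) → Fin m → ℕ) :
    mr (Sum.elim c fun i => ∏ l, z l ^ e i l) ≤ mr (Sum.elim c z) := by
  refine mr_le_of_pow_mem _ _ fun j => ⟨1, one_pos, ?_⟩
  rw [pow_one]
  rcases j with j | i
  · exact Subgroup.subset_closure ⟨.inl j, rfl⟩
  · refine Subgroup.prod_mem _ fun l _ => Subgroup.pow_mem _ ?_ _
    exact Subgroup.subset_closure ⟨.inr l, rfl⟩

/-- the bounded exponent vectors are finitely many -/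
private theorem CoreG_fin (C : ℕ) : {k : Fin 3 → ℤ | ∀ j, |k j| ≤ C}.Finite := by
  have h3 : {k : Fin 3 → ℤ | ∀ j, |k j| ≤ C} = Set.pi Set.univ fun _ => Set.Icc (-(C : ℤ)) C := by
    ext k
    simp only [Set.mem_ofPred_eq, Set.mem_pi, Set.mem_univ, true_imp_iff, Set.mem_Icc, abs_le]
  rw [h3]
  exact Set.Finite.pi fun _ => Set.finite_Icc (-(C : ℤ)) (C : ℤ)

theorem shell_coreG {m : ℕ} {Ω : Type} [Field Ω] [IsAlgClosed Ω]
    [Algebra (AlgebraicClosure ℚ) Ω] {x : Fin 3 → Ω} (hx : Crv (AlgebraicClosure ℚ) x)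
    (τ : AlgebraicClosure ℚ →+* ℂ) (hNA : NAc (AlgebraicClosure ℚ) x τ)
    (φ : AlgebraicClosure ℚ →+* ℂ) (S : Set (Fin 3 ⊕ Fin m → ℂˣ))
    {L : Type} [Field L] [Algebra ℂ L] (p : Fin 3 ⊕ Fin m → Lˣ) (h1 : vanIdeal S ≤ locus ℂ p)
    (h2 : ∀ s ∈ S, locus ℂ p ≤ locus ℂ s)
    (hcur : ∀ s ∈ S, (fun j => (s (.inl j) : ℂ)) ∈ CT (AlgebraicClosure ℚ) x φ)
    (htd : m ≤ td ℂ p) (hrk : ∀ s ∈ S, mr s + td ℂ p < mr p) : False := by
  classical
  by_cases hconst : ∃ t₀ : ℂ, (p (.inl 0) : L) = algebraMap ℂ L t₀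
  · obtain ⟨t₀, ht₀⟩ := hconst
    obtain ⟨c, hc⟩ := const_all hx φ S p h1 hcur t₀ ht₀
    exact const_case S p h1 h2 htd hrk c hc
  push Not at hconst
  set g : Fin 3 → ℂ := fun _ => 1 with hg
  set b : Fin 3 → ℂ := fun _ => 0 with hb
  have hg0 : g 0 ≠ 0 := one_ne_zero
  set T : L := (p (.inl 0) : L) with hTdef
  have hT0 : (p (.inl 0) : L) = algebraMap ℂ L (g 0) * (T - algebraMap ℂ L (b 0)) := by
    simp [hg, hb, hTdef]
  -- the points with first coordinate outside `T₁`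
  have hT₁f := (fin_rk1 hx φ).image (fun w : Fin 3 → ℂˣ => (w 0 : ℂ))
  set T₁ : Set ℂ := (fun w : Fin 3 → ℂˣ => (w 0 : ℂ)) ''
    {w : Fin 3 → ℂˣ | (fun j => (w j : ℂ)) ∈ CT (AlgebraicClosure ℚ) x φ ∧ mr w ≤ 1} with hT₁
  set S' : Set (Fin 3 ⊕ Fin m → ℂˣ) := {s | s ∈ S ∧ (s (.inl 0) : ℂ) ∉ T₁} with hS'
  have h1' : vanIdeal S' ≤ locus ℂ p := dens_subG S p h1 T₁ hT₁f hconst
  have h2' : ∀ s ∈ S', locus ℂ p ≤ locus ℂ s := fun s hs => h2 s hs.1
  have hmr1 : ∀ s ∈ S', ¬ mr (fun j : Fin 3 => s (.inl j)) ≤ 1 := by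
    intro s hs hle
    exact hs.2 ⟨fun j => s (.inl j), ⟨hcur s hs.1, hle⟩, rfl⟩
  have hmrle : ∀ s : Fin 3 ⊕ Fin m → ℂˣ, mr (fun j : Fin 3 => s (.inl j)) ≤ mr s := fun s =>
    CoreG_sub s Sum.inl
  have hcard : mr p ≤ m + 3 := by
    have := mr_le_card p
    rw [Fintype.card_sum, Fintype.card_fin, Fintype.card_fin] at this
    omega
  obtain ⟨s₀, hs₀, -⟩ := exists_avoid S' p h1' ∅ Set.finite_empty fun f hf => absurd hf (by simp)
  have htdm : td ℂ p = m ∧ mr p = m + 3 := by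
    have e1 := hmr1 s₀ hs₀
    have e2 := hmrle s₀
    have e3 := hrk s₀ hs₀.1
    omega
  have hmr2 : ∀ s ∈ S', mr s ≤ 2 := by
    intro s hs
    have e3 := hrk s hs.1
    omega
  -- the points of `S'` are algebraic
  have halg : ∀ s ∈ S', ∃ (c' : Fin 3 → (AlgebraicClosure ℚ)ˣ)
      (z' : Fin m → (AlgebraicClosure ℚ)ˣ),
      OnC (AlgebraicClosure ℚ) x (fun j => (c' j : AlgebraicClosure ℚ)) ∧
      (∀ j, (s (.inl j) : ℂ) = φ (c' j)) ∧ ∀ l, (s (.inr l) : ℂ) = φ (z' l) := by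
    intro s hs
    have h3 : mr (fun j : Fin 3 => s (.inl j)) ≤ 2 := (hmrle s).trans (hmr2 s hs)
    have h4 : ¬ mr (fun j : Fin 3 => s (.inl j)) = Fintype.card (Fin 3) := by
      rw [Fintype.card_fin]
      omega
    rw [mr_eq_card_iff] at h4
    push Not at h4
    obtain ⟨a, ha, ha0⟩ := h4
    obtain ⟨c', hc', hon⟩ := alg_curve hx φ (fun j => s (.inl j)) (hcur s hs.1) a ha0 ha
    have hse : Sum.elim (fun j : Fin 3 => s (.inl j)) (fun l : Fin m => s (.inr l)) = s := by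
      funext i
      rcases i with i | i <;> rfl
    obtain ⟨z', hz'⟩ := alg_pt φ (fun j => s (.inl j)) c' hc'
      (fun l : Fin m => s (.inr l)) (by rw [hse]; exact hmr2 s hs) (hmr1 s hs)
    exact ⟨c', z', hon, hc', hz'⟩
  obtain ⟨F, hF, hF0⟩ := dep_qbarG φ S' p h1' h2' htdm.1.le (by
    intro s hs i
    obtain ⟨c', z', -, e2, e3⟩ := halg s hs
    rcases i with i | i
    · exact ⟨c' i, (e2 i).symm⟩
    · exact ⟨z' i, (e3 i).symm⟩)
  obtain ⟨n, e, f, hn, he, hf, hnvs⟩ := min_relation ((algebraMap ℂ L).comp φ) T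
    (CoreG_tr φ T hconst) (fun l => (p (.inr l) : L)) (fun l => (p (.inr l)).ne_zero) F hF hF0
  obtain ⟨Ts, N₀, C₀, hTs, hN₀, hmain⟩ := thmQ hx τ hNA hn f hf
  -- the polynomials to avoid
  set one' : Fin (n + 1) := ⟨1, by omega⟩ with hone
  set P₁ : Set (MvPolynomial (Fin 3 ⊕ Fin m) ℂ) :=
    (fun I : Finset (Fin (n + 1)) => ∑ i ∈ I, pterm g b φ (f i) (e i)) ''
      {I | I.Nonempty ∧ I ≠ Finset.univ} with hP₁
  set P₂ : Set (MvPolynomial (Fin 3 ⊕ Fin m) ℂ) :=
    (fun c : Fin 3 → AlgebraicClosure ℚ => tpol g b - C (φ (c 0))) '' Ts with hP₂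
  set P₃ : Set (MvPolynomial (Fin 3 ⊕ Fin m) ℂ) :=
    (fun k : Fin 3 → ℤ => pbin (fun l => N₀ * e one' l) (fun l => N₀ * e 0 l) 1 k) ''
      {k : Fin 3 → ℤ | ∀ j, |k j| ≤ C₀} with hP₃
  obtain ⟨s, hs, hav⟩ := exists_avoid S' p h1' (P₁ ∪ P₂ ∪ P₃)
    ((((Set.toFinite _).image _).union (hTs.image _)).union ((CoreG_fin C₀).image _)) (by
      rintro q ((⟨I, ⟨hI1, hI2⟩, rfl⟩ | ⟨t, ht, rfl⟩) | ⟨k, hk, rfl⟩)
      · rw [mem_locus, map_sum]
        have e1 := hnvs.2 I hI1 hI2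
        intro e2
        apply e1
        rw [← e2]
        exact Finset.sum_congr rfl fun i _ => (aeval_term g b hg0 φ (f i) (e i) p T hT0).symm
      · rw [mem_locus, map_sub, aeval_tpol g b hg0 p T hT0, aeval_C, sub_eq_zero]
        exact hconst _
      · refine bin_gen (fun l => N₀ * e one' l) (fun l => N₀ * e 0 l) ?_ 1
          IsOfFinOrder.one k p htdm.2
        intro h0
        have h3 : e one' = e 0 := by
          funext l
          have := congrFun h0 l
          exact Nat.eq_of_mul_eq_mul_left hN₀ this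
        have := congrArg Fin.val (he h3)
        simp [hone] at this)
  obtain ⟨c', z', hon, e2, e3⟩ := halg s hs
  have hsT : (s (.inl 0) : ℂ) = algebraMap ℂ ℂ (g 0) * (φ (c' 0) - algebraMap ℂ ℂ (b 0)) := by
    rw [e2 0]
    simp [hg, hb]
  have hterm : ∀ i, aeval (fun i => (s i : ℂ)) (pterm g b φ (f i) (e i)) =
      φ ((f i).eval (c' 0 : AlgebraicClosure ℚ) *
        ((∏ l, z' l ^ e i l : (AlgebraicClosure ℚ)ˣ) : AlgebraicClosure ℚ)) := by
    intro i
    rw [aeval_term g b hg0 φ (f i) (e i) s (φ (c' 0)) hsT, map_mul, Units.coe_prod, map_prod]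
    congr 1
    · rw [← Polynomial.eval₂_id (p := f i), Polynomial.hom_eval₂]
      rfl
    · refine Finset.prod_congr rfl fun l _ => ?_
      rw [e3 l, Units.val_pow_eq_pow_val, map_pow]
  have hNV : NVS fun i => (f i).eval (c' 0 : AlgebraicClosure ℚ) *
      ((∏ l, z' l ^ e i l : (AlgebraicClosure ℚ)ˣ) : AlgebraicClosure ℚ) := by
    constructor
    · have e4 : ∑ i, pterm g b φ (f i) (e i) ∈ locus ℂ p := by
        rw [mem_locus, map_sum, ← hnvs.1]
        exact Finset.sum_congr rfl fun i _ => aeval_term g b hg0 φ (f i) (e i) p T hT0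
      have e5 := h2' s hs e4
      rw [mem_locus, map_sum] at e5
      apply φ.injective
      rw [map_zero, map_sum, ← e5]
      exact Finset.sum_congr rfl fun i _ => (hterm i).symm
    · intro I hI1 hI2 e6
      have e7 := hav _ (Or.inl (Or.inl ⟨I, ⟨hI1, hI2⟩, rfl⟩))
      apply e7
      rw [mem_locus, map_sum]
      have e8 := congrArg φ e6
      rw [map_zero, map_sum] at e8
      rw [← e8]
      exact Finset.sum_congr rfl fun i _ => hterm i
  have hrank : mr (Sum.elim c' fun i => ∏ l, z' l ^ e i l) ≤ 2 := by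
    refine (CoreG_mon c' z' e).trans ?_
    rw [CoreG_emb φ (Sum.elim c' z') s (by
      intro i
      rcases i with i | i
      · exact e2 i
      · exact e3 i)]
    exact hmr2 s hs
  rcases hmain c' (fun i => ∏ l, z' l ^ e i l) hon hNV hrank with h3 | h3
  · apply hav _ (Or.inl (Or.inr ⟨_, h3, rfl⟩))
    rw [mem_locus, map_sub, aeval_tpol g b hg0 s (φ (c' 0)) hsT, aeval_C, sub_eq_zero]
    rfl
  · obtain ⟨k, hk, h4⟩ := h3 one'
    apply hav _ (Or.inr ⟨k, hk, rfl⟩)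
    rw [mem_locus]
    refine (aeval_bin (fun l => N₀ * e one' l) (fun l => N₀ * e 0 l) 1 k s).2 ?_
    have hsc : ∀ j, s (.inl j) = Units.map (φ : AlgebraicClosure ℚ →* ℂ) (c' j) := fun j =>
      Units.ext (e2 j)
    have hsz : ∀ l, s (.inr l) = Units.map (φ : AlgebraicClosure ℚ →* ℂ) (z' l) := fun l =>
      Units.ext (e3 l)
    have h5 : ∏ l, z' l ^ (N₀ * e one' l) = (∏ l, z' l ^ (N₀ * e 0 l)) * ∏ j, c' j ^ k j := by
      rw [← h4, div_pow, ← Finset.prod_pow, ← Finset.prod_pow]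
      have e9 : ∀ i, ∏ l, z' l ^ (N₀ * e i l) = ∏ l, (z' l ^ e i l) ^ N₀ := by
        intro i
        refine Finset.prod_congr rfl fun l _ => ?_
        rw [mul_comm, pow_mul]
      rw [e9, e9, mul_div_cancel]
    have h6 := congrArg (Units.map (φ : AlgebraicClosure ℚ →* ℂ)) h5
    rw [map_mul, map_prod, map_prod, map_prod] at h6
    simp only [map_pow, map_zpow] at h6
    simp only [hsc, hsz, map_one, mul_one]
    exact h6

end BMG
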