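import Pool.Agent.Lib.MP_a325a5_ag.G2.RedG
import Pool.Agent.Lib.MP_a325a5_ag.G2.GenQ
import Pool.Agent.Lib.MP_a325a5_ag.F2.FinP

/-! Theorem G, final form.

Proof.  `gen_curve`: `Ω`, `x` with `aeval x p = 0 ↔ p ∈ vanIdeal C`.  So `CT K x τ` is the set of the `w : Fin 3 → ℂ` with
nonzero coordinates such that the units `w` are in `cpts τ C`; `NAc` follows from `hNA` (image under the coercion of
units, injective), `hcur` from `hXC`.  `not_denseG`. -/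

namespace BMG

open BMF BMS Pool.Agent.Lib.MP_a325a5_ag.UL Pool.Agent.Lib.MP_a325a5_ag.G2 MvPolynomial

theorem theoremG (C : Set (Fin 3 → (AlgebraicClosure ℚ)ˣ)) (hC : IrrClosed C)
    (hd : zdim C = 1)
    (hcos : ∀ a : Fin 3 → ℤ, a ≠ 0 → ∀ ζ : (AlgebraicClosure ℚ)ˣ,
      ¬ ∀ x ∈ C, ∏ j, x j ^ a j = ζ)
    (τ : AlgebraicClosure ℚ →+* ℂ)
    (hNA : ∀ d : Fin 3 → ℝ, d ≠ 0 →
      {w : Fin 3 → ℂˣ | w ∈ cpts τ C ∧ ∃ ρ : ℝ, ∀ j, Real.log ‖(w j : ℂ)‖ = ρ * d j}.Finite)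
    (φ : AlgebraicClosure ℚ →+* ℂ) (n : ℕ) (a : Fin 3 → Fin n → ℤ) (ha : LinearIndependent ℤ a)
    (X : Set (Fin n → ℂˣ)) (hX : IrrClosed X) (hdim : (n : WithBot ℕ∞) ≤ zdim X + 3)
    (hXC : ∀ y ∈ X, (fun j => ∏ i, y i ^ a j i) ∈ cpts φ C) :
    ¬ DenseIn (HLatyp X) X := by
  obtain ⟨Ω, _, _, _, x, hx, hI⟩ := gen_curve C hC hd hcos
  refine not_denseG hx τ ?_ φ a ha X hX hdim ?_
  · intro d hd0
    refine ((hNA d hd0).image (fun (w : Fin 3 → ℂˣ) j => (w j : ℂ))).subset ?_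
    rintro w ⟨⟨hw0, hw⟩, ρ, hρ⟩
    refine ⟨fun j => Units.mk0 (w j) (hw0 j), ⟨fun p hp => ?_, ρ, hρ⟩, rfl⟩
    exact hw p ((hI p).mpr hp)
  · intro y hy
    refine ⟨fun j => (∏ i, y i ^ a j i : ℂˣ).ne_zero, fun p hp => ?_⟩
    exact hXC y hy p ((hI p).mp hp)

end BMG
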