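import Pool.Agent.Lib.MP_a325a5_ag.G2.CoreG
import Pool.Agent.Lib.MP_a325a5_ag.F2.SRed

/-! The theorem for a subvariety of `𝔾_mⁿ` with three monomials on a curve: copy of `not_dense` in F2/SRed.lean with
`shell_coreG` instead of `shell_core` (copy also the private lemmas `SRed_*`). -/

namespace BMG

open BMF BMS Pool.Agent.Lib.MP_a325a5_ag.UL MvPolynomial

/-- the Laurent monomials of a point -/
private def RedG_q {M ι κ : Type} [CommGroup M] [Fintype ι] (A : κ → ι → ℤ) (x : ι → M) : κ → M :=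
  fun j => ∏ i, x i ^ A j i

private theorem RedG_pow {M ι κ : Type} [CommGroup M] [Fintype ι] [DecidableEq ι] [Fintype κ]
    (A : κ → ι → ℤ) (x : ι → M)
    (c : κ → ℤ) (i : ι) (N : ℕ) (h : ∀ k, (if k = i then (N : ℤ) else 0) = ∑ j, c j * A j k) :
    x i ^ N = ∏ j, RedG_q A x j ^ c j := by
  unfold RedG_q
  have e1 : ∏ j, (∏ i, x i ^ A j i) ^ c j = ∏ k, x k ^ (∑ j, c j * A j k) := by
    have e3 : ∀ k, x k ^ (∑ j, c j * A j k) = ∏ j, x k ^ (c j * A j k) := by
      intro k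
      induction (Finset.univ : Finset κ) using Finset.cons_induction with
      | empty => simp
      | cons y s hy ih => rw [Finset.sum_cons, Finset.prod_cons, zpow_add, ih]
    simp_rw [e3]
    rw [Finset.prod_comm]
    refine Finset.prod_congr rfl fun j _ => ?_
    rw [← Finset.prod_zpow]
    refine Finset.prod_congr rfl fun k _ => ?_
    rw [mul_comm, zpow_mul]
  rw [e1]
  have e2 : ∀ k, x k ^ (∑ j, c j * A j k) = if k = i then x k ^ N else 1 := by
    intro k
    rw [← h k]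
    split_ifs with hk
    · rw [zpow_natCast]
    · rw [zpow_zero]
  simp_rw [e2]
  rw [Finset.prod_ite_eq' Finset.univ i]
  simp

private theorem RedG_closure {M ι κ : Type} [CommGroup M] [Fintype κ] (y : κ → M) (c : κ → ℤ) :
    ∏ j, y j ^ c j ∈ Subgroup.closure (Set.range y) :=
  Subgroup.prod_mem _ fun j _ =>
    Subgroup.zpow_mem _ (Subgroup.subset_closure (Set.mem_range_self j)) _

private theorem RedG_alg {L κ : Type} [Field L] [Algebra ℂ L] [Fintype κ] (y : κ → Lˣ) (c : κ → ℤ)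
    (x : Lˣ) (N : ℕ) (hN : 0 < N) (h : x ^ N = ∏ j, y j ^ c j) :
    IsAlgebraic (Algebra.adjoin ℂ (Set.range fun j => (y j : L))) (x : L) := by
  have hy : ∀ j, IsAlgebraic (Algebra.adjoin ℂ (Set.range fun j => (y j : L))) (y j : L) := by
    intro j
    have hmem : (y j : L) ∈ Algebra.adjoin ℂ (Set.range fun j => (y j : L)) :=
      Algebra.subset_adjoin (Set.mem_range_self j)
    exact isAlgebraic_algebraMap (⟨(y j : L), hmem⟩ :
      Algebra.adjoin ℂ (Set.range fun j => (y j : L)))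
  have h1 : ∀ s : Finset κ, IsAlgebraic (Algebra.adjoin ℂ (Set.range fun j => (y j : L)))
      ((∏ j ∈ s, y j ^ c j : Lˣ) : L) := by
    intro s
    induction s using Finset.cons_induction with
    | empty =>
      rw [Finset.prod_empty, Units.val_one]
      exact isAlgebraic_one
    | cons a s ha ih =>
      rw [Finset.prod_cons, Units.val_mul]
      refine IsAlgebraic.mul ?_ ih
      rcases Int.eq_nat_or_neg (c a) with ⟨k, hk | hk⟩
      · rw [hk, zpow_natCast, Units.val_pow_eq_pow_val]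
        exact (hy a).pow k
      · rw [hk, zpow_neg, zpow_natCast, ← inv_pow, Units.val_pow_eq_pow_val, Units.val_inv_eq_inv_val]
        exact ((hy a).inv).pow k
  have h2 : IsAlgebraic (Algebra.adjoin ℂ (Set.range fun j => (y j : L))) ((x : L) ^ N) := by
    have := h1 Finset.univ
    rw [← h, Units.val_pow_eq_pow_val] at this
    exact this
  exact h2.of_pow hN

theorem not_denseG {n : ℕ} {Ω : Type} [Field Ω] [IsAlgClosed Ω]
    [Algebra (AlgebraicClosure ℚ) Ω] {x : Fin 3 → Ω} (hx : Crv (AlgebraicClosure ℚ) x)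
    (τ : AlgebraicClosure ℚ →+* ℂ) (hNA : NAc (AlgebraicClosure ℚ) x τ)
    (φ : AlgebraicClosure ℚ →+* ℂ) (a : Fin 3 → Fin n → ℤ) (ha : LinearIndependent ℤ a)
    (X : Set (Fin n → ℂˣ)) (hX : IrrClosed X) (hdim : (n : WithBot ℕ∞) ≤ zdim X + 3)
    (hcur : ∀ y ∈ X, (fun j => ((∏ i, y i ^ a j i : ℂˣ) : ℂ)) ∈
      CT (AlgebraicClosure ℚ) x φ) :
    ¬ DenseIn (HLatyp X) X := by
  classical
  intro hd
  obtain ⟨L, _, _, p₀, hp₀⟩ := exists_generic X hX
  rw [denseIn_iff X hX p₀ hp₀] at hd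
  have hdim' : n ≤ td ℂ p₀ + 3 := by
    rw [zdim_eq X p₀ hp₀] at hdim
    exact_mod_cast hdim
  obtain ⟨m, u, hn, hu⟩ := exists_compl a ha
  set S₀ : Set (Fin n → ℂˣ) := {x | x ∈ X ∧ mr x + td ℂ p₀ < mr p₀} with hS₀
  set A : Fin 3 ⊕ Fin m → Fin n → ℤ := Sum.elim a u with hA
  have hpow : ∀ i : Fin n, ∃ N : ℕ, 0 < N ∧ ∃ c : Fin 3 ⊕ Fin m → ℤ,
      ∀ k, (if k = i then (N : ℤ) else 0) = ∑ j, c j * A j k := by
    intro i
    obtain ⟨N, hN, x, y, hxy⟩ := hu i
    refine ⟨N, hN, Sum.elim x y, fun k => ?_⟩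
    rw [hxy k, Fintype.sum_sum_type]
    rfl
  -- the point
  have e1 : ∀ j, RedG_q A p₀ j = ∏ i, p₀ i ^ A j i := fun j => rfl
  refine shell_coreG hx τ hNA φ ((fun x => RedG_q A x) '' S₀) (RedG_q A p₀) ?_ ?_ ?_ ?_ ?_
  · intro f hf
    obtain ⟨P, N, hP⟩ := exists_clear A f
    have h1 : P ∈ vanIdeal S₀ := by
      rw [mem_vanIdeal]
      intro x hx
      have h2 := hP ℂ x
      have h3 : aeval (fun i => (x i : ℂ)) P = eval (fun i => (x i : ℂ)) P := by
        rw [← MvPolynomial.coe_aeval_eq_eval]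
        rfl
      rw [← h3, h2]
      have h4 := hf (RedG_q A x) ⟨x, hx, rfl⟩
      have h5 : aeval (fun j => ((∏ i, x i ^ A j i : ℂˣ) : ℂ)) f =
          eval (fun j => ((RedG_q A x j : ℂˣ) : ℂ)) f := by
        rw [← MvPolynomial.coe_aeval_eq_eval]
        rfl
      rw [h5, h4, mul_zero]
    have h6 := hd h1
    rw [← hp₀, mem_locus, hP L p₀] at h6
    rw [mem_locus]
    rcases mul_eq_zero.mp h6 with h7 | h7
    · exfalso
      have h8 : ∏ i, (p₀ i : L) ≠ 0 := Finset.prod_ne_zero_iff.mpr fun i _ => (p₀ i).ne_zero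
      exact pow_ne_zero N h8 h7
    · exact h7
  · rintro _ ⟨x, hx, rfl⟩
    have h1 : locus ℂ p₀ ≤ locus ℂ x := by
      rw [hp₀]
      exact (mem_iff_le_locus hX x).mp hx.1
    have h2 := locus_monomial_le x p₀ h1 A (fun _ => 1)
    simp only [map_one, one_mul] at h2
    exact h2
  · rintro _ ⟨x, hx, rfl⟩
    exact hcur x hx.1
  · have h1 : td ℂ p₀ ≤ td ℂ (RedG_q A p₀) := by
      apply td_le_of_algebraic
      intro i
      obtain ⟨N, hN, c, hc⟩ := hpow i
      exact RedG_alg (RedG_q A p₀) c (p₀ i) N hN (RedG_pow A p₀ c i N hc)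
    omega
  · rintro _ ⟨x, hx, rfl⟩
    have h1 : mr (RedG_q A x) ≤ mr x := by
      apply mr_le_of_pow_mem
      intro j
      refine ⟨1, one_pos, ?_⟩
      rw [pow_one]
      exact RedG_closure (ι := Fin n) x (A j)
    have h2 : td ℂ (RedG_q A p₀) ≤ td ℂ p₀ := by
      apply td_le_of_algebraic
      intro j
      exact RedG_alg p₀ (A j) (RedG_q A p₀ j) 1 one_pos (by rw [pow_one]; rfl)
    have h3 : mr p₀ ≤ mr (RedG_q A p₀) := by
      apply mr_le_of_pow_mem
      intro i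
      obtain ⟨N, hN, c, hc⟩ := hpow i
      refine ⟨N, hN, ?_⟩
      rw [RedG_pow A p₀ c i N hc]
      exact RedG_closure (ι := Fin n) (RedG_q A p₀) c
    have h4 := hx.2
    change mr (RedG_q A x) + td ℂ (RedG_q A p₀) < mr (RedG_q A p₀)
    omega


end BMG
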