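import Pool.Agent.Lib.MP_a325a5_ag.G2.DesQ
import Pool.Agent.Lib.MP_a325a5_ag.G.ThmGL

/-! Theorem S_C over the algebraic numbers.

Proof.  `descend` with `S` = the coefficients of the `f i`: `L`, `f i = (g i).map (algebraMap L K)` (as in S/ThmS.lean),
`thmG_L` for `x`, `g`, `τ.comp (algebraMap L K)`: `NAc L x (τ.comp _)` follows from `NAc K x τ` by the equality of the
sets `CT`. -/

open BMF Pool.Agent.Lib.MP_a325a5_ag.UL

namespace BMG

theorem thmQ {Ω : Type} [Field Ω] [IsAlgClosed Ω] [Algebra (AlgebraicClosure ℚ) Ω]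
    {x : Fin 3 → Ω} (hx : Crv (AlgebraicClosure ℚ) x) (τ : AlgebraicClosure ℚ →+* ℂ)
    (hNA : NAc (AlgebraicClosure ℚ) x τ) {n : ℕ} (hn : 1 ≤ n)
    (f : Fin (n + 1) → Polynomial (AlgebraicClosure ℚ)) (hf : ∀ i, f i ≠ 0) :
    ∃ (T : Set (Fin 3 → AlgebraicClosure ℚ)) (N₀ C : ℕ), T.Finite ∧ 0 < N₀ ∧
      ∀ (c : Fin 3 → (AlgebraicClosure ℚ)ˣ) (z : Fin (n + 1) → (AlgebraicClosure ℚ)ˣ),
        OnC (AlgebraicClosure ℚ) x (fun j => (c j : AlgebraicClosure ℚ)) →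
        NVS (fun i => (f i).eval (c 0 : AlgebraicClosure ℚ) * (z i : AlgebraicClosure ℚ)) →
        mr (Sum.elim c z) ≤ 2 → (fun j => (c j : AlgebraicClosure ℚ)) ∈ T ∨
        ∀ i, ∃ κ : Fin 3 → ℤ, (∀ j, |κ j| ≤ C) ∧ (z i / z 0) ^ N₀ = ∏ j, c j ^ κ j := by
  classical
  let S : Set (AlgebraicClosure ℚ) := ⋃ i, ((f i).coeffs : Set _)
  have hSf : S.Finite := Set.finite_iUnion fun i => Finset.finite_toSet _
  obtain ⟨L, _, _, _, _, _, hS, hxL, hon, hct⟩ := descend hx S hSf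
  have hlift : ∀ i, ∃ g : Polynomial L, g.map (algebraMap L (AlgebraicClosure ℚ)) = f i := by
    intro i
    have h1 : f i ∈ Polynomial.lifts (algebraMap L (AlgebraicClosure ℚ)) := by
      rw [Polynomial.lifts_iff_coeffs_subset_range]
      intro y hy
      exact hS (Set.mem_iUnion.mpr ⟨i, hy⟩)
    exact h1
  choose g hg using hlift
  have hg0 : ∀ i, g i ≠ 0 := by
    intro i h0
    apply hf i
    rw [← hg i, h0, Polynomial.map_zero]
  have hNA' : NAc L x (τ.comp (algebraMap L (AlgebraicClosure ℚ))) := by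
    intro d hd
    rw [hct τ]
    exact hNA d hd
  obtain ⟨T, N₀, C, hT, hN₀, hmain⟩ := thmG_L hxL _ hNA' hn g hg0
  refine ⟨T, N₀, C, hT, hN₀, fun c z hc hs hm => ?_⟩
  refine hmain c z ((hon _).mpr hc) ?_ hm
  have e : (fun i => Polynomial.aeval (c 0 : AlgebraicClosure ℚ) (g i) *
      (z i : AlgebraicClosure ℚ)) =
      fun i => (f i).eval (c 0 : AlgebraicClosure ℚ) * (z i : AlgebraicClosure ℚ) := by
    funext i
    rw [← hg i, Polynomial.eval_map_algebraMap]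
  rw [e]
  exact hs

end BMG
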